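import Pool.Agent.H27.L1.H34.GA.Targets1
import Pool.Agent.H27.L1.H86.GA.CORE
import Pool.Agent.H27.L1.H44.GMF.HAR
import Pool.Agent.H27.L1.H34.GM.PWN
import Pool.Agent.H27.L1.H14.GZ.TLB

/-!
Row TBA of the board ga: the mass of the bump functions near the unit matrix.
-/

set_option autoImplicit false

namespace Pool.Agent.H27.L1.H86.GA

open MeasureTheory Pool.Agent.H27.L1.H34.GM Pool.Agent.H27.L1.H34.GZ Pool.Agent.H27.L1.H34.GU Pool.Agent.H27.L1.H34.GA

/-- the determinant near the unit matrix -/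
theorem near1 (hP : T_PWN) (m : ℕ) (hm : 1 ≤ m) : ∃ K κ : ℝ, 0 < K ∧ 0 < κ ∧
    ∀ (ε : ℝ) (w : Mat m), 0 < ε → ε ≤ κ → sz (w - 1) ≤ ε → w.det ≠ 0 ∧ |aN w - 1| ≤ K * ε := by
  obtain ⟨K0, κ0, hK0, hκ0, h⟩ := Pool.Agent.H27.L1.H14.GZ.TLB.near hP m hm
  have hmR : (1 : ℝ) ≤ m := by exact_mod_cast hm
  refine ⟨K0 * (3 * m ^ 2), min 1 (κ0 / (3 * m ^ 2)), by positivity,
    lt_min one_pos (by positivity), fun ε w h0 h1 h2 => ?_⟩
  have h3 : ε ≤ 1 := h1.trans (min_le_left _ _)
  have h4 : 3 * (m : ℝ) ^ 2 * ε ≤ κ0 := by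
    have := h1.trans (min_le_right _ _)
    rw [le_div_iff₀ (by positivity)] at this
    linarith
  have h5 := zlb_ball hm w ε h0 h3 (fun i j => by
    have := (entry_le (w - 1) i j).trans h2
    rwa [Matrix.sub_apply] at this)
  obtain ⟨h6, h7⟩ := h (3 * (m : ℝ) ^ 2 * ε) w (by positivity) h4 h5
  refine ⟨h6, h7.trans (le_of_eq ?_)⟩
  ring

/-- the measure of a small cube -/
theorem hm_ball {m : ℕ} (ε : ℝ) (h0 : 0 < ε) (h1 : ε ≤ 1)
    (hd : ∀ z : Mat m, sz (z - 1) ≤ ε → z.det ≠ 0) :
    ENNReal.ofReal ((((m.factorial : ℝ) * 2 ^ m) ^ m)⁻¹ * (2 * ε) ^ (m * m)) ≤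
      hm m {z | sz (mt z - 1) ≤ ε} := by
  set B : Set (V m) := Metric.closedBall (fun i j => (1 : Mat m) i j) ε with hB
  have hBm : MeasurableSet B := measurableSet_closedBall
  have hBe : ∀ z ∈ B, sz (mt z - 1) ≤ ε := by
    intro z hz
    rw [hB, Metric.mem_closedBall, dist_eq_norm] at hz
    exact hz
  refine le_trans ?_ (measure_mono (hBe : B ⊆ {z | sz (mt z - 1) ≤ ε}))
  unfold hm
  rw [withDensity_apply _ hBm]
  have hlow : ∀ z ∈ B, ENNReal.ofReal ((((m.factorial : ℝ) * 2 ^ m) ^ m)⁻¹) ≤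
      ENNReal.ofReal ((|(mt z).det| ^ m)⁻¹) := by
    intro z hz
    refine ENNReal.ofReal_le_ofReal ?_
    have hnear := hBe z hz
    have hdet : (mt z).det ≠ 0 := hd _ hnear
    have hdl : |(mt z).det| ≤ (m.factorial : ℝ) * 2 ^ m := by
      refine det_bd fun i j => ?_
      have h6 := (entry_le (mt z - 1) i j).trans hnear
      have h7 : |(1 : Mat m) i j| ≤ 1 := by
        rw [Matrix.one_apply]
        split_ifs <;> simp
      have h8 : (mt z) i j = (mt z - 1) i j + (1 : Mat m) i j := by simp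
      rw [h8]
      refine (abs_add_le _ _).trans ?_
      linarith
    refine inv_anti₀ (pow_pos (abs_pos.2 hdet) m) ?_
    exact pow_le_pow_left₀ (abs_nonneg _) hdl m
  calc ENNReal.ofReal ((((m.factorial : ℝ) * 2 ^ m) ^ m)⁻¹ * (2 * ε) ^ (m * m)) =
      ENNReal.ofReal ((((m.factorial : ℝ) * 2 ^ m) ^ m)⁻¹) * volume B := by
        rw [hB, zlb_vol ε h0.le, ← ENNReal.ofReal_mul (by positivity)]
    _ = ∫⁻ _z in B, ENNReal.ofReal ((((m.factorial : ℝ) * 2 ^ m) ^ m)⁻¹) := by
        rw [setLIntegral_const]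
    _ ≤ ∫⁻ z in B, ENNReal.ofReal ((|(mt z).det| ^ m)⁻¹) :=
        setLIntegral_mono' hBm hlow

/-- division by the normalised determinant -/
theorem div_one {m : ℕ} {w : Mat m} {a ε K : ℝ} (hε : 0 < ε) (hK : 0 < K) (hKe : K * ε ≤ 1 / 4)
    (ha : |a - 1| ≤ K * ε) (hw : sz (w - 1) ≤ ε) : sz (a⁻¹ • w - 1) ≤ 2 * (1 + K) * ε := by
  obtain ⟨ha1, ha2⟩ := abs_le.1 ha
  have ha0 : 3 / 4 ≤ a := by linarith
  have hap : 0 < a := by linarith
  have hai : a⁻¹ ≤ 2 := by
    rw [inv_le_comm₀ hap (by norm_num)]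
    linarith
  rw [sz_le (by positivity)]
  intro i j
  have h1 := (entry_le (w - 1) i j).trans hw
  have h2 : |(1 : Mat m) i j| ≤ 1 := by
    rw [Matrix.one_apply]
    split_ifs <;> simp
  have e : (a⁻¹ • w - 1) i j = a⁻¹ * ((w - 1) i j - (a - 1) * (1 : Mat m) i j) := by
    rw [Matrix.sub_apply, Matrix.smul_apply, smul_eq_mul, Matrix.sub_apply]
    field_simp
    ring
  rw [e, abs_mul, abs_of_pos (inv_pos.2 hap)]
  have h3 : |(w - 1) i j - (a - 1) * (1 : Mat m) i j| ≤ ε + K * ε := by
    refine (abs_sub _ _).trans (add_le_add h1 ?_)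
    rw [abs_mul]
    calc |a - 1| * |(1 : Mat m) i j| ≤ K * ε * 1 :=
          mul_le_mul ha h2 (abs_nonneg _) (by positivity)
      _ = K * ε := mul_one _
  calc a⁻¹ * |(w - 1) i j - (a - 1) * (1 : Mat m) i j| ≤ 2 * (ε + K * ε) :=
        mul_le_mul hai h3 (abs_nonneg _) (by norm_num)
    _ = 2 * (1 + K) * ε := by ring

open Pool.Agent.H27.L1.H14.GZ.TLB in
theorem pf_TBA : T_TBA := by
  classical
  intro m χ hm1 hχ
  have HAR : T_HAR := Pool.Agent.H27.L1.H44.GMF.pf_HAR
  obtain ⟨K, κ, hK, hκ, hnear⟩ := near1 pf_PWN m hm1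
  have hmR : (1 : ℝ) ≤ m := by exact_mod_cast hm1
  set L : ℝ := 4 * m * (1 + K) + 4 * K + 1 / κ with hL
  have hL0 : 0 < L := by positivity
  have hL1 : 4 ≤ L := by
    have h1 : 0 < 4 * K + 1 / κ := by positivity
    have h2 : 0 < (m : ℝ) * K := by positivity
    nlinarith
  set cm : ℝ := (((m.factorial : ℝ) * 2 ^ m) ^ m)⁻¹ * (2 / L) ^ (m * m) with hcm
  have hcm0 : 0 < cm := by positivity
  set cU : ℝ := 2 * Real.exp 1 with hcU
  have he0 := Real.exp_pos (1 : ℝ)
  have he1 : 1 ≤ Real.exp 1 := Real.one_le_exp (by norm_num)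
  have hcU0 : 1 ≤ cU := by linarith
  set U : Set (V m) := {z | sz (mt z) ≤ cU ∧ cU⁻¹ ≤ |(mt z).det|} with hUdef
  have hUm : MeasurableSet U := by
    have h5 : Measurable (fun z : V m => sz (mt z)) := by
      have : (fun z : V m => sz (mt z)) = fun z : V m => ‖z‖ := by
        funext z
        rfl
      rw [this]
      exact measurable_norm
    have h6 : Measurable (fun z : V m => |(mt z).det|) :=
      ((zlb_cmt (m := m)).matrix_det).abs.measurable
    exact (measurableSet_le h5 measurable_const).inter (measurableSet_le measurable_const h6)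
  have hUf : hm m U < ⊤ := (HAR m hm1).2.2.2 cU (by linarith)
  refine ⟨cm, (hm m U).toReal + 1, m * m, hcm0, by positivity, ?_⟩
  intro δ h0 h1
  -- the normalized matrix
  set φ : V m → ℝ := fun z => bf χ δ ((aN (mt z))⁻¹ • mt z) with hφ
  have hnzm : Measurable (fun z : V m => (aN (mt z))⁻¹ • z) := (meas_aN.inv).smul measurable_id
  have hφm : Measurable φ := (bf_contDiff hχ δ).continuous.measurable.comp hnzm
  have hφ0 : ∀ z, 0 ≤ φ z := fun z => hχ.lo _
  have hφ1 : ∀ z, φ z ≤ 1 := fun z => hχ.hi _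
  have hbump : ∀ z : V m, bi m χ δ (((1 : ℝ)⁻¹ * (aN (mt z))⁻¹) • mt z) = ((φ z : ℝ) : ℂ) := by
    intro z
    rw [inv_one, one_mul]
    rfl
  set ψ : V m → ℝ := (Shell m).indicator φ with hψ
  have hψm : Measurable ψ := hφm.indicator meas_Shell
  have hψ0 : ∀ z, 0 ≤ ψ z := fun z => Set.indicator_nonneg (fun z _ => hφ0 z) z
  have hψ1 : ∀ z, ψ z ≤ 1 := by
    intro z
    rw [hψ]
    by_cases hz : z ∈ Shell m
    · rw [Set.indicator_of_mem hz]
      exact hφ1 z
    · rw [Set.indicator_of_notMem hz]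
      norm_num
  have haN0 : ∀ z ∈ Shell m, 0 < aN (mt z) := fun z hz => lt_of_lt_of_le one_pos hz.1
  have hψU : ∀ z, ψ z ≠ 0 → z ∈ U := by
    intro z hz
    have hzS : z ∈ Shell m := by
      by_contra h
      exact hz (Set.indicator_of_notMem h _)
    rw [hψ, Set.indicator_of_mem hzS] at hz
    have ha := haN0 z hzS
    have h2 := sz_le_two (bf_supp4 hχ h0 h1 hz)
    have h3 : sz (mt z) = aN (mt z) * sz ((aN (mt z))⁻¹ • mt z) := by
      have e1 : sz (mt z) = ‖z‖ := rfl
      have e2 : sz ((aN (mt z))⁻¹ • mt z) = ‖(aN (mt z))⁻¹ • z‖ := rfl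
      rw [e1, e2, norm_smul, norm_inv, Real.norm_of_nonneg ha.le, ← mul_assoc,
        mul_inv_cancel₀ ha.ne', one_mul]
    refine ⟨?_, ?_⟩
    · rw [h3, hcU]
      calc aN (mt z) * sz ((aN (mt z))⁻¹ • mt z) ≤ Real.exp 1 * 2 :=
            mul_le_mul hzS.2.le h2 (norm_nonneg _) he0.le
        _ = 2 * Real.exp 1 := by ring
    · have h5 : 1 ≤ |(mt z).det| := by
        by_contra hlt
        push Not at hlt
        have h6 : aN (mt z) < 1 := by
          unfold aN
          exact Real.rpow_lt_one (abs_nonneg _) hlt (by positivity)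
        linarith [hzS.1]
      exact (inv_le_one_of_one_le₀ hcU0).trans h5
  have hgint : Integrable (U.indicator (fun _ => (1 : ℝ))) (hm m) := by
    rw [integrable_indicator_iff hUm]
    exact integrableOn_const hUf.ne
  have hψg : ∀ z, ψ z ≤ U.indicator (fun _ => (1 : ℝ)) z := by
    intro z
    by_cases hz : ψ z = 0
    · rw [hz]
      exact Set.indicator_nonneg (fun _ _ => by norm_num) z
    · rw [Set.indicator_of_mem (hψU z hz)]
      exact hψ1 z
  have hψint : Integrable ψ (hm m) := by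
    refine Integrable.mono' hgint hψm.aestronglyMeasurable
      (Filter.Eventually.of_forall (fun z => ?_))
    rw [Real.norm_eq_abs, abs_of_nonneg (hψ0 z)]
    exact hψg z
  have hI0 : 0 ≤ ∫ z, ψ z ∂(hm m) := integral_nonneg hψ0
  have hZ : uu (bi m χ δ) (fun _ => 1) 1 = ((∫ z, ψ z ∂(hm m) : ℝ) : ℂ) := by
    unfold uu
    rw [← integral_indicator meas_Shell, ← integral_complex_ofReal]
    refine integral_congr_ae (Filter.Eventually.of_forall (fun z => ?_))
    show (Shell m).indicator (fun z : V m => bi m χ δ (((1 : ℝ)⁻¹ * (aN (mt z))⁻¹) • mt z) *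
      1) z = ((ψ z : ℝ) : ℂ)
    by_cases hz : z ∈ Shell m
    · rw [Set.indicator_of_mem hz, hbump, hψ, Set.indicator_of_mem hz, mul_one]
    · rw [Set.indicator_of_notMem hz, hψ, Set.indicator_of_notMem hz, Complex.ofReal_zero]
  have htb : tb m χ δ = ∫ z, ψ z ∂(hm m) := by
    unfold tb
    rw [hZ, Complex.norm_real, Real.norm_of_nonneg hI0]
  refine ⟨?_, ?_, ?_, ?_⟩
  · -- the lower bound
    rw [htb]
    set d : ℝ := δ / L with hd
    have hd0 : 0 < d := by positivity
    have hdL : L * d = δ := by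
      rw [hd]
      field_simp
    have hd1 : d ≤ 1 := by nlinarith
    have hKd : K * d ≤ 1 / 4 := by
      have h2 : 4 * K * d ≤ L * d := mul_le_mul_of_nonneg_right (by
        have : 0 < 4 * (m : ℝ) * (1 + K) + 1 / κ := by positivity
        linarith) hd0.le
      rw [hdL] at h2
      linarith
    have hκd : d ≤ κ := by
      have h2 : 1 / κ * d ≤ L * d := mul_le_mul_of_nonneg_right (by
        have : 0 < 4 * (m : ℝ) * (1 + K) + 4 * K := by positivity
        linarith) hd0.le
      rw [hdL, one_div, inv_mul_le_iff₀ hκ] at h2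
      nlinarith
    have hd2 : 2 * (1 + K) * d ≤ δ / (2 * m) := by
      rw [le_div_iff₀ (by positivity)]
      have h2 : 4 * m * (1 + K) * d ≤ L * d := mul_le_mul_of_nonneg_right (by
        have : 0 < 4 * K + 1 / κ := by positivity
        linarith) hd0.le
      rw [hdL] at h2
      linarith
    have hA : ENNReal.ofReal (cm * δ ^ (m * m)) ≤ hm m {z | sz (mt z - 1) ≤ d} := by
      refine le_trans (le_of_eq ?_) (hm_ball d hd0 hd1 fun z hz => (hnear d z hd0 hκd hz).1)
      congr 1
      rw [hcm, mul_assoc, ← mul_pow, hd]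
      congr 2
      ring
    have hSm : MeasurableSet {z : V m | sz (mt z - 1) ≤ d} := by
      have h5 : Measurable (fun z : V m => sz (mt z - 1)) := by
        have : (fun z : V m => sz (mt z - 1)) =
            fun z : V m => ‖z - (fun i j => (1 : Mat m) i j)‖ := by
          funext z
          rfl
        rw [this]
        exact (measurable_id.sub_const _).norm
      exact measurableSet_le h5 measurable_const
    set s : ℝ := Real.exp (-(1 / 2)) with hs
    have hs0 : 0 < s := Real.exp_pos _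
    have hsd : ((s • (1 : Mat m)) : Mat m).det ≠ 0 := by
      rw [Matrix.det_smul, Matrix.det_one, mul_one]
      exact (pow_pos hs0 _).ne'
    have h2 := ((HAR m hm1).1 (s • (1 : Mat m)) hsd
      ({z : V m | sz (mt z - 1) ≤ d}.indicator 1) (measurable_one.indicator hSm)).1
    rw [lintegral_indicator_one hSm] at h2
    have h3 : hm m {z : V m | sz (mt z - 1) ≤ d} ≤ ∫⁻ z, ENNReal.ofReal (ψ z) ∂(hm m) := by
      rw [← h2]
      refine lintegral_mono (fun z => ?_)
      have e1 : (fun i j => ((s • (1 : Mat m)) * mt z) i j : V m) = s • z := by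
        funext i j
        rw [smul_mul_assoc, Matrix.one_mul]
        rfl
      show ({z : V m | sz (mt z - 1) ≤ d}.indicator 1
        (fun i j => ((s • (1 : Mat m)) * mt z) i j : V m) : ENNReal) ≤ ENNReal.ofReal (ψ z)
      rw [e1]
      by_cases hz : s • z ∈ {z : V m | sz (mt z - 1) ≤ d}
      · rw [Set.indicator_of_mem hz, Pi.one_apply, ← ENNReal.ofReal_one]
        refine ENNReal.ofReal_le_ofReal ?_
        have hzs : sz (mt (s • z) - 1) ≤ d := hz
        have h4 : |aN (mt (s • z)) - 1| ≤ K * d := (hnear d _ hd0 hκd hzs).2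
        have h5 : aN (mt (s • z)) = s * aN (mt z) := aN_smul hm1 s hs0 (mt z)
        obtain ⟨h6, h7⟩ := abs_le.1 h4
        have hse : Real.exp (1 / 2) * s = 1 := by
          rw [hs, ← Real.exp_add]
          norm_num
        have h8 : aN (mt z) = Real.exp (1 / 2) * aN (mt (s • z)) := by
          rw [h5, ← mul_assoc, hse, one_mul]
        have he2 : Real.exp 1 = Real.exp (1 / 2) * Real.exp (1 / 2) := by
          rw [← Real.exp_add]
          norm_num
        have hpos := Real.exp_pos (1 / 2 : ℝ)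
        have he3 : 1 / 2 + (1 / 2 : ℝ) ^ 2 / 2 + 1 ≤ Real.exp (1 / 2) := by
          have := Real.quadratic_le_exp_of_nonneg (x := (1 / 2 : ℝ)) (by norm_num)
          linarith
        have hzS : z ∈ Shell m := by
          refine ⟨?_, ?_⟩
          · rw [h8]
            nlinarith
          · rw [h8, he2]
            refine mul_lt_mul_of_pos_left ?_ hpos
            linarith
        have h9 : (aN (mt z))⁻¹ • mt z = (aN (mt (s • z)))⁻¹ • mt (s • z) := by
          have h11 : mt (s • z) = s • mt z := rfl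
          rw [h5, h11, smul_smul]
          congr 1
          have := (haN0 z hzS).ne'
          field_simp
        have h12 := div_one hd0 hK hKd h4 hzs
        have h16 : φ z = 1 := by
          rw [hφ]
          show bf χ δ ((aN (mt z))⁻¹ • mt z) = 1
          rw [h9]
          exact bf_one' hm1 hχ h0 (h12.trans hd2)
        rw [hψ, Set.indicator_of_mem hzS, h16]
      · rw [Set.indicator_of_notMem hz]
        exact bot_le
    rw [← ofReal_integral_eq_lintegral_ofReal hψint
      (Filter.Eventually.of_forall hψ0)] at h3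
    exact (ENNReal.ofReal_le_ofReal_iff hI0).1 (hA.trans h3)
  · rw [htb]
    calc ∫ z, ψ z ∂(hm m) ≤ ∫ z, U.indicator (fun _ => (1 : ℝ)) z ∂(hm m) :=
          integral_mono hψint hgint hψg
      _ = (hm m U).toReal := by
          rw [integral_indicator hUm, setIntegral_const, smul_eq_mul, mul_one]
          rfl
      _ ≤ (hm m U).toReal + 1 := by linarith
  · rw [hZ, htb]
  · unfold L1
    rw [htb, ofReal_integral_eq_lintegral_ofReal hψint (Filter.Eventually.of_forall hψ0),
      ← lintegral_indicator meas_Shell]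
    refine lintegral_congr fun z => ?_
    by_cases hz : z ∈ Shell m
    · rw [Set.indicator_of_mem hz, hbump, hψ, Set.indicator_of_mem hz, Complex.norm_real,
        Real.norm_of_nonneg (hφ0 z)]
    · rw [Set.indicator_of_notMem hz, hψ, Set.indicator_of_notMem hz, ENNReal.ofReal_zero]

end Pool.Agent.H27.L1.H86.GA
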